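import Pool.Agent.Helper70.Matching.Specs3

/-!
# Deterministic properties of the glueing map (packet M-C2a)
-/

set_option autoImplicit false
open Finset

namespace Pool.Agent.Helper3.Match

open Pool.Agent.Helper70.Matching

theorem mem_box {N q : ℕ} (hq : 0 < q) (x0 x1 y0 y1 : ℕ) (v : Site N) :
    v ∈ (NBox.mk (x0 * q) (x1 * q) (y0 * q) (y1 * q)).sites N ↔
      x0 ≤ (v.1 : ℕ) / q ∧ (v.1 : ℕ) / q < x1 ∧ y0 ≤ (v.2 : ℕ) / q ∧ (v.2 : ℕ) / q < y1 := by
  unfold NBox.sites
  rw [mem_filter, Nat.le_div_iff_mul_le hq, Nat.div_lt_iff_lt_mul hq, Nat.le_div_iff_mul_le hq,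
    Nat.div_lt_iff_lt_mul hq]
  simp only [mem_univ, true_and]

theorem mem_cellS {N L q : ℕ} (hN : N = L * q) (hq : 0 < q) (v : Site N) (k : Fin L × Fin L) :
    v ∈ cellS N q k ↔ cellOf q hN v = k := by
  unfold cellS blk
  rw [mem_box hq]
  unfold cellOf
  rw [Prod.ext_iff, Fin.ext_iff, Fin.ext_iff]
  simp only
  omega

/-- booleans in `ZMod 2` -/
def bz (b : Bool) : ZMod 2 := if b then 1 else 0

theorem bz_xor (a b : Bool) : bz (xor a b) = bz a + bz b := by
  revert a b; decide

theorem bz_par {V : Type} (A : Finset V) (ω : V → Bool) : ((cnt A ω : ℕ) : ZMod 2) = bz (par A ω) := by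
  unfold par bz
  by_cases h : Even (cnt A ω)
  · rw [(ZMod.natCast_eq_zero_iff_even).2 h]
    simp [h]
  · rw [Nat.not_even_iff_odd] at h
    rw [(ZMod.natCast_eq_one_iff_odd).2 h]
    simp [h]

theorem Nw_cells {N L q : ℕ} (hN : N = L * q) (hq : 0 < q) (ω : Site N → Bool) :
    Nw ω = ∑ k : Fin L × Fin L, cnt (cellS N q k) ω := by
  unfold Nw cnt
  rw [card_eq_sum_card_fiberwise (f := cellOf q hN) (t := univ) (fun _ _ => mem_coe.2 (mem_univ _))]
  apply sum_congr rfl
  intro k _
  congr 1
  ext v
  simp only [mem_filter, mem_univ, true_and, mem_cellS hN hq]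
  exact and_comm

/-- The corner of a cell. -/
theorem card_crn {N L q : ℕ} (hN : N = L * q) (hq : 0 < q) (k : Fin L × Fin L) :
    ((cellS N q k).filter (fun v => crn q v = true)).card = 1 := by
  rw [card_eq_one]
  have h1 : (k.1 : ℕ) * q < N := by
    rw [hN]; exact Nat.mul_lt_mul_of_pos_right k.1.2 hq
  have h2 : (k.2 : ℕ) * q < N := by
    rw [hN]; exact Nat.mul_lt_mul_of_pos_right k.2.2 hq
  refine ⟨(⟨k.1 * q, h1⟩, ⟨k.2 * q, h2⟩), ?_⟩
  ext v
  rw [mem_filter, mem_singleton, mem_cellS hN hq]
  unfold crn cellOf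
  rw [Prod.ext_iff, Prod.ext_iff, Fin.ext_iff, Fin.ext_iff, Fin.ext_iff, Fin.ext_iff,
    decide_eq_true_iff]
  simp only
  constructor
  · rintro ⟨⟨a, b⟩, c, d⟩
    constructor
    · rw [← a, Nat.div_mul_cancel (Nat.dvd_of_mod_eq_zero c)]
    · rw [← b, Nat.div_mul_cancel (Nat.dvd_of_mod_eq_zero d)]
  · rintro ⟨a, b⟩
    rw [a, b, Nat.mul_div_cancel _ hq, Nat.mul_div_cancel _ hq, Nat.mul_mod_left, Nat.mul_mod_left]
    exact ⟨⟨rfl, rfl⟩, rfl, rfl⟩

theorem cnt_congr {V : Type} {A : Finset V} {ω ω' : V → Bool} (h : ∀ v ∈ A, ω v = ω' v) :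
    cnt A ω = cnt A ω' := by
  unfold cnt
  congr 1
  apply filter_congr
  intro v hv
  rw [h v hv]

theorem par_glue {N L q : ℕ} (hN : N = L * q) (hq : 0 < q) (U : Fin L × Fin L → Al N)
    (k : Fin L × Fin L) : par (cellS N q k) (glue q hN U) = bpar (fun k => (U k).1) k := by
  set b := bpar (fun k => (U k).1) k with hb
  set w := if b then (U k).2.2 else (U k).2.1 with hw
  by_cases hc : par (cellS N q k) w = b
  · have : cnt (cellS N q k) (glue q hN U) = cnt (cellS N q k) w := by
      apply cnt_congr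
      intro v hv
      rw [mem_cellS hN hq] at hv
      unfold glue
      rw [hv, ← hb, ← hw, if_pos hc]
    unfold par at hc ⊢
    rw [this, hc]
  · have : cnt (cellS N q k) (glue q hN U) = cnt (cellS N q k) (fun v => b && crn q v) := by
      apply cnt_congr
      intro v hv
      rw [mem_cellS hN hq] at hv
      unfold glue
      rw [hv, ← hb, ← hw, if_neg hc]
    unfold par
    rw [this]
    cases hbv : b
    · simp [cnt]
    · have h1 : cnt (cellS N q k) (fun v => true && crn q v) = 1 := by
        unfold cnt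
        simp only [Bool.true_and]
        exact card_crn hN hq k
      rw [h1]
      decide

/-- The parities of the cells sum to zero. -/
theorem sum_bpar {L : ℕ} (S : Fin L × Fin L → Bool) : ∑ k, bz (bpar S k) = 0 := by
  rcases Nat.eq_zero_or_pos L with hL | hL
  · subst hL
    apply Finset.sum_eq_zero
    intro k _
    exact k.1.elim0
  set e : ℕ → ℕ → ZMod 2 := fun x y => bz (ext S x y) with he
  have e1 : ∀ x, e x L = 0 := by
    intro x
    have : ext S x L = false := by
      unfold Helper70.Matching.ext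
      rw [dif_neg]
      rintro ⟨⟨-, h⟩, -⟩
      omega
    rw [he]
    simp only [this]
    rfl
  have e2 : e L 0 = 0 := by
    have : ext S L 0 = false := by
      unfold Helper70.Matching.ext
      rw [dif_neg]
      rintro ⟨⟨h, -⟩, -⟩
      omega
    rw [he]
    simp only [this]
    rfl
  have e3 : e 0 0 = 0 := by
    have : ext S 0 0 = false := by
      unfold Helper70.Matching.ext
      rw [dif_neg]
      rintro ⟨-, h⟩
      exact h ⟨rfl, rfl⟩
    rw [he]
    simp only [this]
    rfl
  have two : ∀ a : ZMod 2, a + a = 0 := by decide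
  have h0 : ∀ k : Fin L × Fin L, bz (bpar S k) =
      e k.1 k.2 + (e k.1 (k.2 + 1) + if (k.2 : ℕ) = 0 then e (k.1 + 1) 0 else 0) := by
    intro k
    unfold bpar
    rw [bz_xor, bz_xor]
    congr 2
    split_ifs
    · rfl
    · rfl
  rw [Finset.sum_congr rfl fun k _ => h0 k, Fintype.sum_prod_type]
  have h1 : ∀ x : Fin L, ∑ y : Fin L, (e x y + (e x (y + 1) +
      if (y : ℕ) = 0 then e (x + 1) 0 else 0)) = e x 0 + e (x + 1) 0 := by
    intro x
    rw [Fin.sum_univ_eq_sum_range (fun y => e x y + (e x (y + 1) +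
      if y = 0 then e (x + 1) 0 else 0)) L, Finset.sum_add_distrib, Finset.sum_add_distrib]
    have a1 : ∑ y ∈ range L, (if y = 0 then e (x + 1) 0 else 0) = e (x + 1) 0 := by
      rw [Finset.sum_ite_eq' (range L) 0]
      rw [if_pos (mem_range.2 hL)]
    have a2 : ∑ y ∈ range L, e x (y + 1) + e x 0 = ∑ y ∈ range L, e x y + e x L := by
      rw [← Finset.sum_range_succ', ← Finset.sum_range_succ]
    rw [a1]
    rw [e1, add_zero] at a2
    rw [← a2]
    linear_combination two (∑ y ∈ range L, e x (y + 1))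
  have h2 : ∀ x : Fin L, ∑ y : Fin L, (e x y + (e x (y + 1) +
      if (y : ℕ) = 0 then e (x + 1) 0 else 0)) = (fun x : ℕ => e x 0 + e (x + 1) 0) (x : ℕ) := h1
  rw [Finset.sum_congr rfl fun x _ => h2 x,
    Fin.sum_univ_eq_sum_range (fun x => e x 0 + e (x + 1) 0) L, Finset.sum_add_distrib]
  have a2 : ∑ x ∈ range L, e (x + 1) 0 + e 0 0 = ∑ x ∈ range L, e x 0 + e L 0 := by
    rw [← Finset.sum_range_succ' (fun x => e x 0), ← Finset.sum_range_succ (fun x => e x 0)]
  rw [e2, e3, add_zero, add_zero] at a2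
  rw [a2]
  exact two _

theorem ext_congr {L : ℕ} {S S' : Fin L × Fin L → Bool} {x y : ℕ}
    (h : ∀ (hx : x < L) (hy : y < L), S (⟨x, hx⟩, ⟨y, hy⟩) = S' (⟨x, hx⟩, ⟨y, hy⟩)) :
    ext S x y = ext S' x y := by
  unfold Helper70.Matching.ext
  split_ifs with h1
  · exact h _ _
  · rfl

theorem glueSpec : Spec_glue := by
  intro N L q hN hq
  constructor
  · intro U
    rw [← ZMod.natCast_eq_zero_iff_even, Nw_cells hN hq, Nat.cast_sum]
    rw [Finset.sum_congr rfl fun k _ => bz_par (cellS N q k) (glue q hN U)]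
    rw [Finset.sum_congr rfl fun k _ => by rw [par_glue hN hq U k]]
    exact sum_bpar _
  · intro cx cy s hs U U' hU v h1 h2
    rw [mem_box hq] at h1
    set k := cellOf q hN v with hk
    have hk1 : (k.1 : ℕ) = (v.1 : ℕ) / q := rfl
    have hk2 : (k.2 : ℕ) = (v.2 : ℕ) / q := rfl
    have hUk : U k = U' k := by
      apply hU
      rw [hk1, hk2]
      tauto
    have hb : bpar (fun k => (U k).1) k = bpar (fun k => (U' k).1) k := by
      unfold bpar
      have c1 : ext (fun k => (U k).1) k.1 k.2 = ext (fun k => (U' k).1) k.1 k.2 := by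
        apply ext_congr
        intro _ _
        show (U k).1 = (U' k).1
        rw [hUk]
      have c2 : ext (fun k => (U k).1) k.1 ((k.2 : ℕ) + 1) =
          ext (fun k => (U' k).1) k.1 ((k.2 : ℕ) + 1) := by
        apply ext_congr
        intro _ _
        rw [hU]
        simp only
        intro hc
        apply h2
        have hcy : cy ≠ 0 := by
          intro h0
          apply h1
          omega
        unfold eBox
        rw [if_neg hcy, mem_box hq]
        omega
      rw [c1, c2]
      split_ifs with h0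
      · have c3 : ext (fun k => (U k).1) ((k.1 : ℕ) + 1) 0 =
            ext (fun k => (U' k).1) ((k.1 : ℕ) + 1) 0 := by
          apply ext_congr
          intro _ _
          rw [hU]
          simp only
          intro hc
          apply h2
          have hcy : cy = 0 := by omega
          unfold eBox
          rw [if_pos hcy]
          have := mem_box (N := N) hq (cx - 1) cx 0 1 v
          rw [zero_mul, one_mul] at this
          rw [this]
          omega
        rw [c3]
      · rfl
    unfold glue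
    rw [← hk, hb, hUk]

end Pool.Agent.Helper3.Match
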