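import Pool.Agent.Helper70.Matching.Specs4

/-!
# Pair insertion (packet M-D2)
-/

set_option autoImplicit false
open Finset

namespace Pool.Agent.Helper3.Match

open Pool.Agent.Helper70.Matching

/-- Averaging over one coordinate. -/
theorem upd_sum {K V M : Type} [Fintype K] [DecidableEq K] [Fintype V] [AddCommMonoid M]
    (a : K) (F : (K → V) → M) :
    ∑ u : K → V, ∑ x : V, F (Function.update u a x) = Fintype.card V • ∑ u, F u := by
  classical
  rw [← Fintype.sum_prod_type' (f := fun u x => F (Function.update u a x))]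
  let σ : (K → V) × V ≃ (K → V) × V :=
    { toFun := fun q => (Function.update q.1 a q.2, q.1 a)
      invFun := fun q => (Function.update q.1 a q.2, q.1 a)
      left_inv := fun q => by simp
      right_inv := fun q => by simp }
  rw [Fintype.sum_equiv σ (fun q => F (Function.update q.1 a q.2)) (fun q => F q.1)
    (fun q => rfl)]
  rw [Fintype.sum_prod_type]
  simp [Finset.smul_sum]

/-- same sub-box -/
def sm (g : ℕ) {N : ℕ} (y y' : Site N) : Prop :=
  (y.1 : ℕ) / g = (y'.1 : ℕ) / g ∧ (y.2 : ℕ) / g = (y'.2 : ℕ) / g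

instance (g : ℕ) {N : ℕ} (y y' : Site N) : Decidable (sm g y y') := by
  unfold sm; infer_instance

/-- normalised indicator of the same sub-box -/
noncomputable def kk (ν g : ℕ) {N : ℕ} (y y' : Site N) : ℝ := if sm g y y' then (ν : ℝ) ^ 2 else 0

theorem kk_nonneg (ν g : ℕ) {N : ℕ} (y y' : Site N) : 0 ≤ kk ν g y y' := by
  unfold kk; split_ifs <;> positivity

theorem kk_symm (ν g : ℕ) {N : ℕ} (y y' : Site N) : kk ν g y y' = kk ν g y' y := by
  unfold kk sm
  congr 1
  rw [eq_iff_iff]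
  constructor <;> rintro ⟨a, b⟩ <;> exact ⟨a.symm, b.symm⟩

theorem card_fin {N ν g t : ℕ} (h : N = ν * g) (hg : 0 < g) (ht : t < ν) :
    ((univ : Finset (Fin N)).filter (fun i : Fin N => (i : ℕ) / g = t)).card = g := by
  rw [card_filter, Fin.sum_univ_eq_sum_range (fun i => if i / g = t then 1 else 0) N,
    ← card_filter]
  have : (range N).filter (fun i => i / g = t) = Finset.Ico (t * g) ((t + 1) * g) := by
    ext i
    rw [mem_filter, mem_range, mem_Ico]
    constructor
    · rintro ⟨-, rfl⟩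
      exact ⟨Nat.div_mul_le_self _ _, by
        rw [← Nat.div_lt_iff_lt_mul hg]; omega⟩
    · rintro ⟨h1, h2⟩
      have h3 : t ≤ i / g := (Nat.le_div_iff_mul_le hg).2 h1
      have h4 : i / g < t + 1 := (Nat.div_lt_iff_lt_mul hg).2 h2
      refine ⟨?_, by omega⟩
      have h5 : (t + 1) * g ≤ ν * g := Nat.mul_le_mul_right g ht
      omega
  rw [this, Nat.card_Ico]
  have : (t + 1) * g = t * g + g := by ring
  omega

theorem card_sm {N ν g : ℕ} (h : N = ν * g) (hg : 0 < g) (y : Site N) :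
    ((univ : Finset (Site N)).filter (fun x => sm g x y)).card = g * g := by
  have h1 : ∀ i : Fin N, (i : ℕ) / g < ν := fun i => by
    rw [Nat.div_lt_iff_lt_mul hg, ← h]; exact i.2
  have : (univ : Finset (Site N)).filter (fun x => sm g x y) =
      ((univ : Finset (Fin N)).filter (fun i : Fin N => (i : ℕ) / g = (y.1 : ℕ) / g)) ×ˢ
      ((univ : Finset (Fin N)).filter (fun i : Fin N => (i : ℕ) / g = (y.2 : ℕ) / g)) := by
    ext x
    simp [sm]
  rw [this, card_product, card_fin h hg (h1 _), card_fin h hg (h1 _)]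

theorem sum_kk {N ν g : ℕ} (h : N = ν * g) (hg : 0 < g) (y : Site N) :
    ∑ x, kk ν g x y = (N : ℝ) ^ 2 := by
  unfold kk
  rw [← sum_filter, sum_const, card_sm h hg, nsmul_eq_mul, h]
  push_cast
  ring

theorem card_site (N : ℕ) : (Fintype.card (Site N) : ℝ) = (N : ℝ) ^ 2 := by
  simp [Fintype.card_prod, sq]

theorem sum_kk_sub {N ν g : ℕ} (h : N = ν * g) (hg : 0 < g) (y : Site N) :
    ∑ x, (kk ν g x y - 1) = 0 := by
  rw [sum_sub_distrib, sum_kk h hg, sum_const, card_univ, nsmul_eq_mul, card_site, mul_one,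
    sub_self]

theorem sum_kk_sq {N ν g : ℕ} (h : N = ν * g) (hg : 0 < g) (y : Site N) :
    ∑ x, (kk ν g x y - 1) ^ 2 = (N : ℝ) ^ 2 * ((ν : ℝ) ^ 2 - 1) := by
  have h1 : ∀ x, (kk ν g x y - 1) ^ 2 = ((ν : ℝ) ^ 2 - 2) * kk ν g x y + 1 := by
    intro x
    unfold kk
    split_ifs
    · ring
    · ring
  rw [sum_congr rfl fun x _ => h1 x, sum_add_distrib, ← mul_sum, sum_kk h hg, sum_const,
    card_univ, nsmul_eq_mul, card_site]
  ring

section

variable {N ν g m : ℕ}

/-- `e_{ab}` -/
noncomputable def ee (ν g : ℕ) {N m : ℕ} (p : Fin m × Fin m) (u : Fin m → Site N) : ℝ :=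
  kk ν g (u p.1) (u p.2) - 1

theorem ee_swap (p : Fin m × Fin m) (u : Fin m → Site N) : ee ν g p.swap u = ee ν g p u := by
  unfold ee
  rw [Prod.fst_swap, Prod.snd_swap, kk_symm]

theorem sum_ee_sq (h : N = ν * g) (hg : 0 < g) (hN : 0 < N) (p : Fin m × Fin m)
    (hp : p.1 ≠ p.2) :
    ∑ u : Fin m → Site N, ee ν g p u ^ 2 = (((N : ℝ) ^ 2) ^ m) * ((ν : ℝ) ^ 2 - 1) := by
  have h1 := upd_sum (V := Site N) p.1 (fun u => ee ν g p u ^ 2)
  have h2 : ∀ u : Fin m → Site N, ∑ x, ee ν g p (Function.update u p.1 x) ^ 2 =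
      (N : ℝ) ^ 2 * ((ν : ℝ) ^ 2 - 1) := by
    intro u
    rw [← sum_kk_sq h hg (u p.2)]
    apply sum_congr rfl
    intro x _
    unfold ee
    rw [Function.update_self, Function.update_of_ne hp.symm]
  rw [sum_congr rfl fun u _ => h2 u, sum_const, card_univ, nsmul_eq_mul, nsmul_eq_mul,
    card_site, Fintype.card_fun, Fintype.card_fin, Nat.cast_pow, card_site] at h1
  have hN' : (0 : ℝ) < (N : ℝ) ^ 2 := by positivity
  have h3 : (N : ℝ) ^ 2 * ∑ u : Fin m → Site N, ee ν g p u ^ 2 =
      (N : ℝ) ^ 2 * ((((N : ℝ) ^ 2) ^ m) * ((ν : ℝ) ^ 2 - 1)) := by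
    rw [← h1]; ring
  exact mul_left_cancel₀ hN'.ne' h3

theorem sum_ee_zero_aux (h : N = ν * g) (hg : 0 < g) (hN : 0 < N) (p q : Fin m × Fin m)
    (hp : p.1 ≠ p.2) (h1 : p.1 ≠ q.1) (h2 : p.1 ≠ q.2) :
    ∑ u : Fin m → Site N, ee ν g p u * ee ν g q u = 0 := by
  have h3 := upd_sum (V := Site N) p.1 (fun u => ee ν g p u * ee ν g q u)
  have h4 : ∀ u : Fin m → Site N, ∑ x, ee ν g p (Function.update u p.1 x) *
      ee ν g q (Function.update u p.1 x) = 0 := by
    intro u
    have : ∀ x, ee ν g p (Function.update u p.1 x) * ee ν g q (Function.update u p.1 x) =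
        (kk ν g x (u p.2) - 1) * ee ν g q u := by
      intro x
      unfold ee
      rw [Function.update_self, Function.update_of_ne hp.symm, Function.update_of_ne h1.symm,
        Function.update_of_ne h2.symm]
    rw [sum_congr rfl fun x _ => this x, ← sum_mul, sum_kk_sub h hg, zero_mul]
  rw [sum_congr rfl fun u _ => h4 u, sum_const_zero, nsmul_eq_mul, card_site] at h3
  have hN' : (0 : ℝ) < (N : ℝ) ^ 2 := by positivity
  rcases mul_eq_zero.1 h3.symm with h5 | h5
  · exact absurd h5 hN'.ne'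
  · exact h5

theorem sum_ee_zero (h : N = ν * g) (hg : 0 < g) (hN : 0 < N) (p q : Fin m × Fin m)
    (hp : p.1 ≠ p.2) (_hq : q.1 ≠ q.2) (h1 : q ≠ p) (h2 : q ≠ p.swap) :
    ∑ u : Fin m → Site N, ee ν g p u * ee ν g q u = 0 := by
  by_cases a1 : p.1 = q.1
  · -- then `p.2` is not in `q`
    have b1 : p.2 ≠ q.2 := fun hc => h1 (Prod.ext a1.symm hc.symm)
    have b2 : p.2 ≠ q.1 := fun hc => hp (a1.trans hc.symm)
    rw [sum_congr rfl fun u _ => by rw [← ee_swap p u]]
    exact sum_ee_zero_aux h hg hN p.swap q hp.symm b2 b1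
  · by_cases a2 : p.1 = q.2
    · have b1 : p.2 ≠ q.1 := fun hc => h2 (Prod.ext hc.symm a2.symm)
      have b2 : p.2 ≠ q.2 := fun hc => hp (a2.trans hc.symm)
      rw [sum_congr rfl fun u _ => by rw [← ee_swap p u]]
      exact sum_ee_zero_aux h hg hN p.swap q hp.symm b1 b2
    · exact sum_ee_zero_aux h hg hN p q hp a1 a2

/-- the sum over all ordered pairs -/
noncomputable def EE (ν g : ℕ) {N m : ℕ} (u : Fin m → Site N) : ℝ :=
  ∑ p ∈ (univ : Finset (Fin m)).offDiag, ee ν g p u

theorem sum_EE_sq (h : N = ν * g) (hg : 0 < g) (hN : 0 < N) :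
    ∑ u : Fin m → Site N, EE ν g u ^ 2 ≤
      2 * ((m * m - m : ℕ) : ℝ) * ((((N : ℝ) ^ 2) ^ m) * ((ν : ℝ) ^ 2 - 1)) := by
  set P := (univ : Finset (Fin m)).offDiag with hP
  set R : ℝ := (((N : ℝ) ^ 2) ^ m) * ((ν : ℝ) ^ 2 - 1) with hR
  have hν : (1 : ℝ) ≤ ν := by
    have : 0 < ν := by
      rcases Nat.eq_zero_or_pos ν with h0 | h0
      · subst h0; omega
      · exact h0
    exact_mod_cast this
  have hR0 : 0 ≤ R := by
    rw [hR]
    apply mul_nonneg (by positivity)
    nlinarith
  have h1 : ∑ u : Fin m → Site N, EE ν g u ^ 2 =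
      ∑ p ∈ P, ∑ q ∈ P, ∑ u : Fin m → Site N, ee ν g p u * ee ν g q u := by
    have : ∀ u : Fin m → Site N, EE ν g u ^ 2 = ∑ p ∈ P, ∑ q ∈ P, ee ν g p u * ee ν g q u := by
      intro u
      unfold EE
      rw [sq, sum_mul_sum]
    rw [sum_congr rfl fun u _ => this u, sum_comm]
    apply sum_congr rfl
    intro p _
    rw [sum_comm]
  rw [h1]
  have h2 : ∀ p ∈ P, ∑ q ∈ P, ∑ u : Fin m → Site N, ee ν g p u * ee ν g q u ≤ 2 * R := by
    intro p hp
    have hp' : p.1 ≠ p.2 := (mem_offDiag.1 hp).2.2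
    have h3 : ∀ q ∈ P, ∑ u : Fin m → Site N, ee ν g p u * ee ν g q u =
        if q = p ∨ q = p.swap then R else 0 := by
      intro q hq
      have hq' : q.1 ≠ q.2 := (mem_offDiag.1 hq).2.2
      split_ifs with hc
      · rw [hR, ← sum_ee_sq h hg hN p hp']
        apply sum_congr rfl
        intro u _
        rcases hc with rfl | rfl
        · ring
        · rw [ee_swap]; ring
      · push Not at hc
        exact sum_ee_zero h hg hN p q hp' hq' hc.1 hc.2
    rw [sum_congr rfl h3, ← sum_filter, sum_const, nsmul_eq_mul]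
    apply mul_le_mul_of_nonneg_right _ hR0
    have h4 : (P.filter (fun q => q = p ∨ q = p.swap)) ⊆ {p, p.swap} := by
      intro q hq
      rw [mem_filter] at hq
      simpa using hq.2
    have h5 := (card_le_card h4).trans card_le_two
    exact_mod_cast h5
  refine (sum_le_sum h2).trans (le_of_eq ?_)
  rw [sum_const, hP, offDiag_card, card_univ, Fintype.card_fin, nsmul_eq_mul]
  ring

/-- permutations moving the first two indices to given ones -/
theorem exists_perm {k : ℕ} (a b : Fin (k + 2)) (hab : a ≠ b) :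
    ∃ π : Equiv.Perm (Fin (k + 2)), π 0 = a ∧ π 1 = b := by
  refine ⟨(Equiv.swap 1 (Equiv.swap 0 a b)).trans (Equiv.swap 0 a), ?_, ?_⟩
  · have h1 : (0 : Fin (k + 2)) ≠ Equiv.swap 0 a b := by
      intro hc
      have : Equiv.swap 0 a 0 = Equiv.swap 0 a (Equiv.swap 0 a b) := congrArg _ hc
      rw [Equiv.swap_apply_left, Equiv.swap_apply_self] at this
      exact hab this
    have h2 : Equiv.swap 1 (Equiv.swap 0 a b) 0 = 0 :=
      Equiv.swap_apply_of_ne_of_ne zero_ne_one h1
    rw [Equiv.trans_apply, h2, Equiv.swap_apply_left]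
  · rw [Equiv.trans_apply, Equiv.swap_apply_left, Equiv.swap_apply_self]

theorem sum_pair_symm {k : ℕ} (φ : Multiset (Site N) → ℂ) (p : Fin (k + 2) × Fin (k + 2))
    (hp : p.1 ≠ p.2) :
    ∑ u : Fin (k + 2) → Site N, φ ((univ : Finset (Fin (k + 2))).val.map u) *
        ((kk ν g (u p.1) (u p.2) : ℝ) : ℂ) =
      ∑ u : Fin (k + 2) → Site N, φ ((univ : Finset (Fin (k + 2))).val.map u) *
        ((kk ν g (u 0) (u 1) : ℝ) : ℂ) := by
  obtain ⟨π, h0, h1⟩ := exists_perm p.1 p.2 hp
  apply Fintype.sum_equiv (Equiv.arrowCongr π.symm (Equiv.refl (Site N)))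
  intro u
  have e1 : (Equiv.arrowCongr π.symm (Equiv.refl (Site N))) u = u ∘ π := by
    funext i; simp [Equiv.arrowCongr]
  rw [e1]
  congr 2
  · rw [← Multiset.map_map, Multiset.map_univ_val_equiv]
  · rw [Function.comp_apply, Function.comp_apply, h0, h1]

theorem sum_cons {M : Type} [AddCommMonoid M] {V : Type} [Fintype V] {m : ℕ}
    (F : (Fin (m + 1) → V) → M) :
    ∑ u, F u = ∑ x, ∑ v : Fin m → V, F (Fin.cons x v) := by
  rw [← (Fin.consEquiv (fun _ : Fin (m + 1) => V)).sum_comp, Fintype.sum_prod_type]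
  rfl

theorem map_cons {V : Type} {m : ℕ} (x : V) (v : Fin m → V) :
    (univ : Finset (Fin (m + 1))).val.map (Fin.cons x v : Fin (m + 1) → V) =
      x ::ₘ (univ : Finset (Fin m)).val.map v := by
  rw [Fin.univ_val_map, Fin.univ_val_map, List.ofFn_succ]
  simp

end

theorem pair : Spec_pair := by
  intro N ν g h hN φ η hφ hη k hk
  have hg : 0 < g := by
    rcases Nat.eq_zero_or_pos g with h0 | h0
    · subst h0; omega
    · exact h0
  have hν : (1 : ℝ) ≤ ν := by
    have : 0 < ν := by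
      rcases Nat.eq_zero_or_pos ν with h0 | h0
      · subst h0; omega
      · exact h0
    exact_mod_cast this
  have hNR : (0 : ℝ) < (N : ℝ) ^ 2 := by positivity
  have hNC : ((N : ℂ) ^ 2) ≠ 0 := by
    have : (N : ℂ) ≠ 0 := by exact_mod_cast hN.ne'
    exact pow_ne_zero _ this
  set T : ℝ := ((N : ℝ) ^ 2) ^ (k + 2) with hT
  have hT0 : 0 < T := by rw [hT]; positivity
  set A : ℂ := ∑ u : Fin (k + 2) → Site N, φ ((univ : Finset (Fin (k + 2))).val.map u) with hA
  set Q : ℂ := ∑ u : Fin (k + 2) → Site N, φ ((univ : Finset (Fin (k + 2))).val.map u) *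
        ((kk ν g (u 0) (u 1) : ℝ) : ℂ) with hQ
  have hTC : ((((N : ℂ) ^ 2) ^ (k + 2))) = (T : ℂ) := by rw [hT]; push_cast; ring
  -- first part
  have partC : ‖A - Q‖ ≤ T * (2 * ν / (k + 1)) := by
    set P := (univ : Finset (Fin (k + 2))).offDiag with hP
    set M : ℝ := (((k + 2) * (k + 2) - (k + 2) : ℕ) : ℝ) with hM
    have hM1 : M = ((k : ℝ) + 2) * (k + 1) := by
      rw [hM]
      have : (k + 2) * (k + 2) - (k + 2) = (k + 2) * (k + 1) := by
        have : (k + 2) * (k + 2) = (k + 2) * (k + 1) + (k + 2) := by ring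
        omega
      rw [this]
      push_cast
      ring
    have hM0 : 0 < M := by rw [hM1]; positivity
    have hcard : (P.card : ℝ) = M := by
      rw [hP, offDiag_card, card_univ, Fintype.card_fin, hM]
    have h1 : ∑ u : Fin (k + 2) → Site N, φ ((univ : Finset (Fin (k + 2))).val.map u) *
        ((EE ν g u : ℝ) : ℂ) = (M : ℂ) * (Q - A) := by
      have : ∀ u : Fin (k + 2) → Site N, φ ((univ : Finset (Fin (k + 2))).val.map u) *
          ((EE ν g u : ℝ) : ℂ) = ∑ p ∈ P, (φ ((univ : Finset (Fin (k + 2))).val.map u) *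
            ((kk ν g (u p.1) (u p.2) : ℝ) : ℂ) - φ ((univ : Finset (Fin (k + 2))).val.map u)) := by
        intro u
        unfold EE ee
        rw [Complex.ofReal_sum, mul_sum]
        apply sum_congr rfl
        intro p _
        push_cast
        ring
      rw [sum_congr rfl fun u _ => this u, sum_comm]
      have h2 : ∀ p ∈ P, ∑ u : Fin (k + 2) → Site N,
          (φ ((univ : Finset (Fin (k + 2))).val.map u) *
            ((kk ν g (u p.1) (u p.2) : ℝ) : ℂ) - φ ((univ : Finset (Fin (k + 2))).val.map u)) =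
          Q - A := by
        intro p hp
        rw [sum_sub_distrib, sum_pair_symm φ p (mem_offDiag.1 hp).2.2]
      rw [sum_congr rfl h2, sum_const, nsmul_eq_mul]
      congr 1
      rw [← hcard]
      push_cast
      rfl
    have h2 : M * ‖A - Q‖ ≤ ∑ u : Fin (k + 2) → Site N, |EE ν g u| := by
      calc M * ‖A - Q‖ = ‖(M : ℂ) * (Q - A)‖ := by
            rw [norm_mul, Complex.norm_real, Real.norm_of_nonneg hM0.le, norm_sub_rev]
        _ ≤ ∑ u : Fin (k + 2) → Site N, ‖φ ((univ : Finset (Fin (k + 2))).val.map u) *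
              ((EE ν g u : ℝ) : ℂ)‖ := by rw [← h1]; exact norm_sum_le _ _
        _ ≤ ∑ u : Fin (k + 2) → Site N, |EE ν g u| := by
            apply sum_le_sum
            intro u _
            rw [norm_mul, Complex.norm_real, Real.norm_eq_abs]
            exact mul_le_of_le_one_left (abs_nonneg _) (hφ _)
    have h3 : (∑ u : Fin (k + 2) → Site N, |EE ν g u|) ^ 2 ≤
        T * ∑ u : Fin (k + 2) → Site N, EE ν g u ^ 2 := by
      have := sq_sum_le_card_mul_sum_sq (s := (univ : Finset (Fin (k + 2) → Site N)))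
        (f := fun u => |EE ν g u|)
      simp only [sq_abs] at this
      rw [card_univ, Fintype.card_fun, Fintype.card_fin, Nat.cast_pow, card_site] at this
      exact this
    have h4 := sum_EE_sq (m := k + 2) h hg hN
    have h5 : (M * ‖A - Q‖) ^ 2 ≤ (M * (T * (2 * ν / (k + 1)))) ^ 2 := by
      calc (M * ‖A - Q‖) ^ 2 ≤ (∑ u : Fin (k + 2) → Site N, |EE ν g u|) ^ 2 :=
            pow_le_pow_left₀ (by positivity) h2 2
        _ ≤ T * ∑ u : Fin (k + 2) → Site N, EE ν g u ^ 2 := h3
        _ ≤ T * (2 * M * (T * ((ν : ℝ) ^ 2 - 1))) := by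
            apply mul_le_mul_of_nonneg_left _ hT0.le
            exact h4
        _ ≤ T * (2 * M * (T * (ν : ℝ) ^ 2)) := by
            apply mul_le_mul_of_nonneg_left _ hT0.le
            apply mul_le_mul_of_nonneg_left _ (by positivity)
            apply mul_le_mul_of_nonneg_left _ hT0.le
            linarith
        _ ≤ (M * (T * (2 * ν / (k + 1)))) ^ 2 := by
            have e : (M * (T * (2 * ν / (k + 1)))) ^ 2 =
                T * (2 * M * (T * (ν : ℝ) ^ 2)) * (2 * M / ((k : ℝ) + 1) ^ 2) := by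
              field_simp
            rw [e]
            apply le_mul_of_one_le_right (by positivity)
            rw [hM1, le_div_iff₀ (by positivity)]
            nlinarith
    have h6 := le_of_sq_le_sq h5 (by positivity)
    exact le_of_mul_le_mul_left h6 hM0
  -- second part
  have partB : ‖Q - (N : ℂ) ^ 2 * ((N : ℂ) ^ 2 * ∑ v : Fin k → Site N,
      φ ((univ : Finset (Fin k)).val.map v))‖ ≤ T * η := by
    have h1 : Q = ∑ y : Site N, ∑ y' : Site N, ∑ v : Fin k → Site N,
        φ (y ::ₘ y' ::ₘ (univ : Finset (Fin k)).val.map v) * ((kk ν g y y' : ℝ) : ℂ) := by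
      rw [hQ, sum_cons]
      apply sum_congr rfl
      intro y _
      rw [sum_cons]
      apply sum_congr rfl
      intro y' _
      apply sum_congr rfl
      intro v _
      rw [map_cons, map_cons]
      rfl
    have h2 : (N : ℂ) ^ 2 * ((N : ℂ) ^ 2 * ∑ v : Fin k → Site N,
        φ ((univ : Finset (Fin k)).val.map v)) = ∑ y : Site N, ∑ y' : Site N,
          ∑ v : Fin k → Site N, φ ((univ : Finset (Fin k)).val.map v) *
            ((kk ν g y y' : ℝ) : ℂ) := by
      have h3 : ∀ y' : Site N, ∑ y : Site N, ∑ v : Fin k → Site N,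
          φ ((univ : Finset (Fin k)).val.map v) * ((kk ν g y y' : ℝ) : ℂ) =
          (N : ℂ) ^ 2 * ∑ v : Fin k → Site N, φ ((univ : Finset (Fin k)).val.map v) := by
        intro y'
        simp only [← sum_mul]
        rw [← mul_sum, ← Complex.ofReal_sum, sum_kk h hg, mul_comm]
        push_cast
        rfl
      rw [sum_comm, sum_congr rfl fun y' _ => h3 y', sum_const, card_univ, nsmul_eq_mul]
      congr 1
      have := card_site N
      have h4 : ((Fintype.card (Site N) : ℝ) : ℂ) = (((N : ℝ) ^ 2 : ℝ) : ℂ) := by rw [this]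
      push_cast at h4
      rw [h4]
    rw [h1, h2, ← sum_sub_distrib]
    have h3 : ∀ y y' : Site N, ∀ v : Fin k → Site N,
        ‖φ (y ::ₘ y' ::ₘ (univ : Finset (Fin k)).val.map v) * ((kk ν g y y' : ℝ) : ℂ) -
          φ ((univ : Finset (Fin k)).val.map v) * ((kk ν g y y' : ℝ) : ℂ)‖ ≤
        η * kk ν g y y' := by
      intro y y' v
      rw [← sub_mul, norm_mul, Complex.norm_real, Real.norm_of_nonneg (kk_nonneg _ _ _ _)]
      by_cases hs : sm g y y'
      · apply mul_le_mul_of_nonneg_right _ (kk_nonneg _ _ _ _)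
        exact hη _ (by simpa using hk) y y' hs.1 hs.2
      · unfold kk
        rw [if_neg hs, mul_zero, mul_zero]
    calc _ ≤ ∑ y : Site N, ∑ y' : Site N, ∑ _v : Fin k → Site N, η * kk ν g y y' := by
          refine (norm_sum_le _ _).trans (sum_le_sum fun y _ => ?_)
          rw [← sum_sub_distrib]
          refine (norm_sum_le _ _).trans (sum_le_sum fun y' _ => ?_)
          rw [← sum_sub_distrib]
          exact (norm_sum_le _ _).trans (sum_le_sum fun v _ => h3 y y' v)
      _ = T * η := by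
          have h4 : ∀ y' : Site N, ∑ y : Site N, ∑ _v : Fin k → Site N, η * kk ν g y y' =
              ((N : ℝ) ^ 2) ^ k * (η * (N : ℝ) ^ 2) := by
            intro y'
            simp only [sum_const, card_univ, nsmul_eq_mul, Fintype.card_fun, Fintype.card_fin,
              Nat.cast_pow]
            rw [← mul_sum, ← mul_sum, sum_kk h hg, card_site]
          rw [sum_comm, sum_congr rfl fun y' _ => h4 y', sum_const, card_univ, nsmul_eq_mul,
            card_site, hT]
          ring
  -- conclusion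
  have hTinv : ‖((((N : ℂ) ^ 2) ^ (k + 2))⁻¹)‖ = T⁻¹ := by
    rw [hTC, norm_inv, Complex.norm_real, Real.norm_of_nonneg hT0.le]
  have e1 : Av N (k + 2) φ - Av N k φ = (((N : ℂ) ^ 2) ^ (k + 2))⁻¹ * (A - Q) +
      (((N : ℂ) ^ 2) ^ (k + 2))⁻¹ * (Q - (N : ℂ) ^ 2 * ((N : ℂ) ^ 2 * ∑ v : Fin k → Site N,
      φ ((univ : Finset (Fin k)).val.map v))) := by
    unfold Av
    rw [← hA]
    have aux : ∀ X : ℂ, X ≠ 0 → (X ^ k)⁻¹ = (X ^ (k + 2))⁻¹ * (X * X) := by
      intro X hX
      rw [pow_add, mul_inv, mul_assoc, sq, inv_mul_cancel₀ (mul_ne_zero hX hX), mul_one]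
    rw [aux _ hNC]
    ring
  rw [e1]
  refine (norm_add_le _ _).trans (add_le_add ?_ ?_)
  · rw [norm_mul, hTinv, inv_mul_le_iff₀ hT0]
    exact partC
  · rw [norm_mul, hTinv, inv_mul_le_iff₀ hT0]
    exact partB

end Pool.Agent.Helper3.Match
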