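import Pool.Agent.Helper70.Matching.Specs1

/-!
# Pairing on the boundary of a rectangle (packet M-B2)
-/

set_option autoImplicit false
open Finset

namespace Pool.Agent.Helper3.Match

open Pool.Agent.Helper70.Matching

section general

variable {E : Type} [PseudoMetricSpace E]

theorem pm_add {P Q : Multiset E} {c d : ℝ} (hP : PM P c) (hQ : PM Q d) :
    PM (P + Q) (c + d) := by
  induction hP with
  | nil => simpa using hQ
  | cons x y h ih =>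
    rw [Multiset.cons_add, Multiset.cons_add, add_assoc]
    exact PM.cons x y ih

theorem pm_map {F : Type} [PseudoMetricSpace F] {f : E → F}
    (hf : ∀ x y, dist (f x) (f y) ≤ dist x y) {P : Multiset E} {c : ℝ} (hP : PM P c) :
    ∃ c' ≤ c, PM (P.map f) c' := by
  induction hP with
  | nil => exact ⟨0, le_rfl, by simpa using PM.nil⟩
  | cons x y h ih =>
    obtain ⟨c', hc', h'⟩ := ih
    refine ⟨dist (f x) (f y) + c', add_le_add (hf x y) hc', ?_⟩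
    rw [Multiset.map_cons, Multiset.map_cons]
    exact PM.cons _ _ h'

theorem PairCost.anti {B B' : Set E} {L : ℝ} (h : PairCost B L) (hB : B' ⊆ B) : PairCost B' L :=
  fun Z hZ hE => h Z (fun z hz => hB (hZ z hz)) hE

theorem PairCost.mono {B : Set E} {L L' : ℝ} (h : PairCost B L) (hL : L ≤ L') :
    PairCost B L' := by
  intro Z hZ hE
  obtain ⟨c, hc, h'⟩ := h Z hZ hE
  exact ⟨c, hc.trans hL, h'⟩

theorem pair_union {B₁ B₂ : Set E} {L₁ L₂ Δ : ℝ} (h1 : PairCost B₁ L₁) (h2 : PairCost B₂ L₂)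
    (hΔ : 0 ≤ Δ) (hd : ∀ x ∈ B₁ ∪ B₂, ∀ y ∈ B₁ ∪ B₂, dist x y ≤ Δ) :
    PairCost (B₁ ∪ B₂) (L₁ + L₂ + Δ) := by
  classical
  intro Z hZ hE
  set Z₁ := Z.filter (· ∈ B₁) with hZ₁
  set Z₂ := Z.filter (fun x => ¬ x ∈ B₁) with hZ₂
  have hs : Z₁ + Z₂ = Z := Multiset.filter_add_not _ _
  have c1 : ∀ z ∈ Z₁, z ∈ B₁ := fun z hz => (Multiset.mem_filter.1 hz).2
  have c2 : ∀ z ∈ Z₂, z ∈ B₂ := by
    intro z hz
    obtain ⟨a, b⟩ := Multiset.mem_filter.1 hz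
    exact (hZ z a).resolve_left b
  have hcard : Z₁.card + Z₂.card = Z.card := by rw [← Multiset.card_add, hs]
  rw [← hcard] at hE
  rw [← hs]
  rcases Nat.even_or_odd Z₁.card with he | ho
  · have he2 : Even Z₂.card := (Nat.even_add.1 hE).1 he
    obtain ⟨c, hc, pc⟩ := h1 Z₁ c1 he
    obtain ⟨d, hd', pd⟩ := h2 Z₂ c2 he2
    exact ⟨c + d, by linarith, pm_add pc pd⟩
  · have ho2 : Odd Z₂.card := by
      by_contra hc
      rw [Nat.not_odd_iff_even] at hc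
      exact (Nat.not_even_iff_odd.2 ho) ((Nat.even_add.1 hE).2 hc)
    obtain ⟨x₁, hx₁⟩ := Multiset.card_pos_iff_exists_mem.1 ho.pos
    obtain ⟨x₂, hx₂⟩ := Multiset.card_pos_iff_exists_mem.1 ho2.pos
    obtain ⟨W₁, hW₁⟩ := Multiset.exists_cons_of_mem hx₁
    obtain ⟨W₂, hW₂⟩ := Multiset.exists_cons_of_mem hx₂
    have e1 : Even W₁.card := by
      rw [hW₁, Multiset.card_cons, Nat.odd_add_one, Nat.not_odd_iff_even] at ho
      exact ho
    have e2 : Even W₂.card := by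
      rw [hW₂, Multiset.card_cons, Nat.odd_add_one, Nat.not_odd_iff_even] at ho2
      exact ho2
    obtain ⟨c, hc, pc⟩ := h1 W₁ (fun z hz => c1 z (by rw [hW₁]; exact Multiset.mem_cons_of_mem hz)) e1
    obtain ⟨d, hd', pd⟩ :=
      h2 W₂ (fun z hz => c2 z (by rw [hW₂]; exact Multiset.mem_cons_of_mem hz)) e2
    have hx12 := hd x₁ (Or.inl (c1 _ hx₁)) x₂ (Or.inr (c2 _ hx₂))
    refine ⟨dist x₁ x₂ + (c + d), by linarith, ?_⟩
    have : Z₁ + Z₂ = x₁ ::ₘ x₂ ::ₘ (W₁ + W₂) := by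
      rw [hW₁, hW₂, Multiset.cons_add, Multiset.add_cons]
    rw [this]
    exact PM.cons _ _ (pm_add pc pd)

end general

/-- Pairing on a line. -/
theorem line (n : ℕ) : ∀ (a b : ℝ) (Z : Multiset ℝ), a ≤ b → (∀ z ∈ Z, a ≤ z ∧ z ≤ b) →
    Z.card = 2 * n → ∃ c ≤ b - a, PM Z c := by
  classical
  induction n with
  | zero =>
    intro a b Z hab _ hc
    have : Z = 0 := Multiset.card_eq_zero.1 (by simpa using hc)
    subst this
    exact ⟨0, by linarith, PM.nil⟩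
  | succ n ih =>
    intro a b Z hab hZ hc
    have hmin : ∀ Y : Multiset ℝ, 0 < Y.card → ∃ x ∈ Y, ∀ z ∈ Y, x ≤ z := by
      intro Y hY
      obtain ⟨y, hy⟩ := Multiset.card_pos_iff_exists_mem.1 hY
      obtain ⟨x, hx, h⟩ := Finset.exists_min_image Y.toFinset id ⟨y, by simpa using hy⟩
      exact ⟨x, by simpa using hx, fun z hz => h z (by simpa using hz)⟩
    obtain ⟨x, hx, hxm⟩ := hmin Z (by omega)
    obtain ⟨Z', hZ'⟩ := Multiset.exists_cons_of_mem hx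
    have hc' : Z'.card + 1 = 2 * (n + 1) := by rw [← hc, hZ', Multiset.card_cons]
    obtain ⟨y, hy, hym⟩ := hmin Z' (by omega)
    obtain ⟨Z'', hZ''⟩ := Multiset.exists_cons_of_mem hy
    have hc'' : Z''.card + 1 = Z'.card := by rw [hZ'', Multiset.card_cons]
    have m1 : ∀ z ∈ Z', z ∈ Z := fun z hz => by rw [hZ']; exact Multiset.mem_cons_of_mem hz
    have m2 : ∀ z ∈ Z'', z ∈ Z' := fun z hz => by rw [hZ'']; exact Multiset.mem_cons_of_mem hz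
    have hxy : x ≤ y := hxm y (m1 y hy)
    have hyb : y ≤ b := (hZ y (m1 y hy)).2
    obtain ⟨c, hcb, pc⟩ := ih y b Z'' hyb
      (fun z hz => ⟨hym z (m2 z hz), (hZ z (m1 z (m2 z hz))).2⟩) (by omega)
    refine ⟨dist x y + c, ?_, ?_⟩
    · have : dist x y = y - x := by
        rw [dist_comm, Real.dist_eq, abs_of_nonneg (by linarith)]
      have := (hZ x hx).1
      linarith
    · rw [hZ', hZ'']
      exact PM.cons _ _ pc

theorem line_pair {a b : ℝ} (hab : a ≤ b) : PairCost {z : ℝ | a ≤ z ∧ z ≤ b} (b - a) := by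
  intro Z hZ hE
  obtain ⟨n, hn⟩ := hE
  exact line n a b Z hab hZ (by omega)

/-- Horizontal segments. -/
theorem hor_pair {a b : ℝ} (hab : a ≤ b) (y₀ : ℝ) :
    PairCost {z : ℂ | z.im = y₀ ∧ a ≤ z.re ∧ z.re ≤ b} (b - a) := by
  intro Z hZ hE
  obtain ⟨c, hc, pc⟩ := line_pair hab (Z.map Complex.re)
    (by
      intro z hz
      obtain ⟨w, hw, rfl⟩ := Multiset.mem_map.1 hz
      exact (hZ w hw).2) (by simpa using hE)
  obtain ⟨c', hc', pc'⟩ := pm_map (f := fun t : ℝ => (⟨t, y₀⟩ : ℂ)) (fun s t => by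
    rw [Complex.dist_of_im_eq (by rfl)]) pc
  refine ⟨c', hc'.trans hc, ?_⟩
  rw [Multiset.map_map] at pc'
  have : Z.map ((fun t : ℝ => (⟨t, y₀⟩ : ℂ)) ∘ Complex.re) = Z := by
    conv_rhs => rw [← Multiset.map_id Z]
    apply Multiset.map_congr rfl
    intro z hz
    apply Complex.ext
    · rfl
    · exact (hZ z hz).1.symm
  rwa [this] at pc'

/-- Vertical segments. -/
theorem ver_pair {a b : ℝ} (hab : a ≤ b) (x₀ : ℝ) :
    PairCost {z : ℂ | z.re = x₀ ∧ a ≤ z.im ∧ z.im ≤ b} (b - a) := by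
  intro Z hZ hE
  obtain ⟨c, hc, pc⟩ := line_pair hab (Z.map Complex.im)
    (by
      intro z hz
      obtain ⟨w, hw, rfl⟩ := Multiset.mem_map.1 hz
      exact (hZ w hw).2) (by simpa using hE)
  obtain ⟨c', hc', pc'⟩ := pm_map (f := fun t : ℝ => (⟨x₀, t⟩ : ℂ)) (fun s t => by
    rw [Complex.dist_of_re_eq (by rfl)]) pc
  refine ⟨c', hc'.trans hc, ?_⟩
  rw [Multiset.map_map] at pc'
  have : Z.map ((fun t : ℝ => (⟨x₀, t⟩ : ℂ)) ∘ Complex.im) = Z := by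
    conv_rhs => rw [← Multiset.map_id Z]
    apply Multiset.map_congr rfl
    intro z hz
    apply Complex.ext
    · exact (hZ z hz).1.symm
    · rfl
  rwa [this] at pc'

theorem dist_box {a a' c c' : ℝ} {z w : ℂ} (hz : (a ≤ z.re ∧ z.re ≤ a') ∧ c ≤ z.im ∧ z.im ≤ c')
    (hw : (a ≤ w.re ∧ w.re ≤ a') ∧ c ≤ w.im ∧ w.im ≤ c') : dist z w ≤ (a' - a) + (c' - c) := by
  rw [dist_eq_norm]
  refine (Complex.norm_le_abs_re_add_abs_im _).trans ?_
  rw [Complex.sub_re, Complex.sub_im]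
  apply add_le_add
  · rw [abs_le]; constructor <;> linarith [hz.1.1, hz.1.2, hw.1.1, hw.1.2]
  · rw [abs_le]; constructor <;> linarith [hz.2.1, hz.2.2, hw.2.1, hw.2.2]

theorem pairRect : Spec_pairRect := by
  refine ⟨fun D hD => ?_, fun B₁ B₂ L₁ L₂ Δ h1 h2 hΔ hd => pair_union h1 h2 hΔ hd⟩
  obtain ⟨h1, h2⟩ := hD
  have hs : (0 : ℝ) ≤ D.size := by unfold Rect.size; linarith
  set R : Set ℂ := {z | (D.a ≤ z.re ∧ z.re ≤ D.a') ∧ D.c ≤ z.im ∧ z.im ≤ D.c'} with hR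
  have hRd : ∀ x ∈ R, ∀ y ∈ R, dist x y ≤ D.size := fun x hx y hy => dist_box hx hy
  set V₁ : Set ℂ := {z | z.re = D.a ∧ D.c ≤ z.im ∧ z.im ≤ D.c'} with hV₁
  set V₂ : Set ℂ := {z | z.re = D.a' ∧ D.c ≤ z.im ∧ z.im ≤ D.c'} with hV₂
  set H₁ : Set ℂ := {z | z.im = D.c ∧ D.a ≤ z.re ∧ z.re ≤ D.a'} with hH₁
  set H₂ : Set ℂ := {z | z.im = D.c' ∧ D.a ≤ z.re ∧ z.re ≤ D.a'} with hH₂
  have s1 : V₁ ⊆ R := fun z hz => ⟨⟨hz.1.ge, by rw [hz.1]; exact h1⟩, hz.2⟩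
  have s2 : V₂ ⊆ R := fun z hz => ⟨⟨by rw [hz.1]; exact h1, hz.1.le⟩, hz.2⟩
  have s3 : H₁ ⊆ R := fun z hz => ⟨hz.2, hz.1.ge, by rw [hz.1]; exact h2⟩
  have s4 : H₂ ⊆ R := fun z hz => ⟨hz.2, by rw [hz.1]; exact h2, hz.1.le⟩
  have u12 : V₁ ∪ V₂ ⊆ R := Set.union_subset s1 s2
  have u123 : V₁ ∪ V₂ ∪ H₁ ⊆ R := Set.union_subset u12 s3
  have u1234 : V₁ ∪ V₂ ∪ H₁ ∪ H₂ ⊆ R := Set.union_subset u123 s4
  have p1 := pair_union (ver_pair h2 D.a) (ver_pair h2 D.a') hs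
    (fun x hx y hy => hRd x (u12 hx) y (u12 hy))
  have p2 := pair_union p1 (hor_pair h1 D.c) hs
    (fun x hx y hy => hRd x (u123 hx) y (u123 hy))
  have p3 := pair_union p2 (hor_pair h1 D.c') hs
    (fun x hx y hy => hRd x (u1234 hx) y (u1234 hy))
  refine PairCost.mono (PairCost.anti p3 ?_) (le_of_eq ?_)
  · rintro z ⟨z1, z2, z3, z4, h | h | h | h⟩
    · exact Or.inl (Or.inl (Or.inl ⟨h, z3, z4⟩))
    · exact Or.inl (Or.inl (Or.inr ⟨h, z3, z4⟩))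
    · exact Or.inl (Or.inr ⟨h, z1, z2⟩)
    · exact Or.inr ⟨h, z1, z2⟩
  · unfold Rect.size
    ring

end Pool.Agent.Helper3.Match
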